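import Pool.Agent.Q179.ES.Ex

/-!
# The maximum Euler Sombor index of chemical unicyclic graphs

For every `n ≥ 3` we determine the maximum of the Euler Sombor index over the chemical unicyclic
graphs with `n` vertices and all graphs attaining it.
-/

namespace Pool.Agent.Results.MP_b3e27a_co.Maximum

open Finset Pool.Agent.Q179.ES

open Classical in
/-- The Euler Sombor index. -/
noncomputable def EUS {n : ℕ} (G : SimpleGraph (Fin n)) : ℝ :=
  ∑ e ∈ G.edgeFinset, Sym2.lift ⟨fun u v =>
    √((G.degree u : ℝ) ^ 2 + (G.degree v : ℝ) ^ 2 + (G.degree u : ℝ) * (G.degree v : ℝ)),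
    fun u v => by
      dsimp only
      rw [add_comm ((G.degree u : ℝ) ^ 2), mul_comm (G.degree u : ℝ)]⟩ e

open Classical in
/-- The chemical unicyclic graphs on the vertex set `Fin n`: connected, as many edges as
vertices, and maximum degree at most four. -/
def U (n : ℕ) : Set (SimpleGraph (Fin n)) :=
  {G | G.Connected ∧ G.edgeFinset.card = n ∧ ∀ v, G.degree v ≤ 4}

/-- The maximum value. -/
noncomputable def M (n : ℕ) : ℝ :=
  if n = 3 then 3 * √12
  else if n = 4 then √13 + 2 * √19 + √12
  else if n = 5 then 2 * √21 + 2 * √28 + √12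
  else if n = 6 then √37 + √28 + √19 + 2 * √21 + √13
  else if n = 8 then √48 + 2 * √37 + 4 * √21 + √13
  else if n % 3 = 0 then (n : ℝ) / 3 * (2 * √21 + √48)
  else if n % 3 = 1 then 2 * ((n : ℝ) - 1) / 3 * √21 + 2 * √28 + ((n : ℝ) - 4) / 3 * √48
  else (2 * (n : ℝ) - 1) / 3 * √21 + 3 * √37 + ((n : ℝ) - 8) / 3 * √48

open Classical in
/-- `G` consists of a triangle whose vertices have degrees `p`, `q`, `r` in `G` and of further
vertices of degree one. -/
def Triangle {n : ℕ} (G : SimpleGraph (Fin n)) (p q r : ℕ) : Prop :=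
  ∃ a b c, G.Adj a b ∧ G.Adj b c ∧ G.Adj a c ∧ G.degree a = p ∧ G.degree b = q ∧
    G.degree c = r ∧ ∀ v, v ≠ a → v ≠ b → v ≠ c → G.degree v = 1

open Classical in
/-- `G` has exactly one vertex whose degree is neither one nor four; this vertex has degree `d`
and all its neighbours have degree four. -/
def OneException {n : ℕ} (G : SimpleGraph (Fin n)) (d : ℕ) : Prop :=
  ∃ w, G.degree w = d ∧ (∀ v, v ≠ w → G.degree v = 1 ∨ G.degree v = 4) ∧
    ∀ v, G.Adj w v → G.degree v = 4

open Classical in
/-- The description of the extremal graphs. -/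
def Extremal {n : ℕ} (G : SimpleGraph (Fin n)) : Prop :=
  if n = 3 then Triangle G 2 2 2
  else if n = 4 then Triangle G 3 2 2
  else if n = 5 then Triangle G 4 2 2
  else if n = 6 then Triangle G 4 3 2
  else if n = 8 then Triangle G 4 4 3
  else if n % 3 = 0 then ∀ v, G.degree v = 1 ∨ G.degree v = 4
  else if n % 3 = 1 then OneException G 2
  else OneException G 3

section aux
variable {V : Type*} [Fintype V] [DecidableEq V] {G : SimpleGraph V} [DecidableRel G.Adj]

theorem N_eq_zero (i : ℕ) : N G i = 0 ↔ ∀ v, G.degree v ≠ i := by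
  unfold N
  rw [Finset.card_eq_zero, Finset.filter_eq_empty_iff]
  simp

theorem reg_zero (h : CU G) (h3 : 3 ≤ Fintype.card V) (hm : Fintype.card V % 3 = 0) :
    Reg G ↔ ∀ v, G.degree v = 1 ∨ G.degree v = 4 := by
  have hc := (h.counts h3).2
  constructor
  · rintro ⟨_, h2⟩ v
    have e2 : N G 2 = 0 := by omega
    have e3 : N G 3 = 0 := by omega
    have a2 := (N_eq_zero 2).1 e2 v
    have a3 := (N_eq_zero 3).1 e3 v
    have a1 := h.deg_pos h3 v
    have a4 := h.chem v
    omega
  · intro hv
    refine ⟨fun u v huv => ?_, ?_⟩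
    · have := h.no11 h3 huv
      rcases hv u with h1 | h1 <;> rcases hv v with h2 | h2
      · exact absurd ⟨h1, h2⟩ this
      · exact Or.inr h2
      · exact Or.inl h1
      · exact Or.inl h1
    · have e2 : N G 2 = 0 := (N_eq_zero 2).2 fun v => by rcases hv v with h | h <;> omega
      have e3 : N G 3 = 0 := (N_eq_zero 3).2 fun v => by rcases hv v with h | h <;> omega
      omega

theorem reg_one (h : CU G) (h3 : 3 ≤ Fintype.card V) (d d' : ℕ)
    (hd : (d = 2 ∧ d' = 3) ∨ (d = 3 ∧ d' = 2)) (hm : N G d + N G d' ≤ 1 → N G d = 1) :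
    Reg G ↔ ∃ w, G.degree w = d ∧ (∀ v, v ≠ w → G.degree v = 1 ∨ G.degree v = 4) ∧
      ∀ v, G.Adj w v → G.degree v = 4 := by
  have hs : N G 2 + N G 3 = N G d + N G d' := by
    rcases hd with ⟨rfl, rfl⟩ | ⟨rfl, rfl⟩
    · rfl
    · exact add_comm _ _
  unfold Reg
  rw [hs]
  constructor
  · rintro ⟨h4, h2⟩
    have e1 := hm h2
    have e2 : N G d' = 0 := by omega
    unfold N at e1
    obtain ⟨w, hw⟩ := Finset.card_eq_one.1 e1
    have hw1 : G.degree w = d := by
      have : w ∈ ({w} : Finset V) := Finset.mem_singleton_self w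
      rw [← hw] at this
      exact (Finset.mem_filter.1 this).2
    refine ⟨w, hw1, fun v hv => ?_, fun v hv => ?_⟩
    · have a1 := h.deg_pos h3 v
      have a4 := h.chem v
      have a2 := (N_eq_zero d').1 e2 v
      have a3 : G.degree v ≠ d := by
        intro hh
        have : v ∈ univ.filter (fun v => G.degree v = d) := by simp [hh]
        rw [hw] at this
        exact hv (Finset.mem_singleton.1 this)
      omega
    · rcases h4 w v hv with hh | hh
      · omega
      · exact hh
  · rintro ⟨w, hw, hv, hn⟩
    refine ⟨fun u v huv => ?_, ?_⟩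
    · by_cases hu : u = w
      · right; exact hn v (hu ▸ huv)
      · by_cases hv' : v = w
        · left; exact hn u (hv' ▸ huv.symm)
        · have := h.no11 h3 huv
          rcases hv u hu with h1 | h1 <;> rcases hv v hv' with h2 | h2
          · exact absurd ⟨h1, h2⟩ this
          · exact Or.inr h2
          · exact Or.inl h1
          · exact Or.inl h1
    · have e1 : N G d ≤ 1 := by
        unfold N
        rw [Finset.card_le_one]
        intro a ha b hb
        have ha' := (Finset.mem_filter.1 ha).2
        have hb' := (Finset.mem_filter.1 hb).2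
        have k : ∀ x, G.degree x = d → x = w := by
          intro x hx
          by_contra hxw
          rcases hv x hxw with h1 | h1 <;> omega
        rw [k a ha', k b hb']
      have e2 : N G d' = 0 := (N_eq_zero d').2 fun v => by
        by_cases hvw : v = w
        · rw [hvw]; omega
        · rcases hv v hvw with h1 | h1 <;> omega
      omega

theorem reg_of_gd (h : Gd G) : Reg G := by
  refine ⟨h.e4, ?_⟩
  have : N G 2 + N G 3 = (univ.filter (fun v => G.degree v = 2 ∨ G.degree v = 3)).card := by
    unfold N
    rw [Finset.filter_or, Finset.card_union_of_disjoint]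
    rw [Finset.disjoint_left]
    intro v h1 h2
    have h1' := (Finset.mem_filter.1 h1).2
    have h2' := (Finset.mem_filter.1 h2).2
    omega
  rw [this, Finset.card_le_one]
  intro a ha b hb
  exact h.uniq a b (Finset.mem_filter.1 ha).2 (Finset.mem_filter.1 hb).2

end aux

theorem fv {a b c : ℕ} (h : a ^ 2 + b ^ 2 + a * b = c) : f a b = √(c : ℝ) := by
  unfold f
  rw [← h]
  push_cast
  rfl

theorem EUS_eq {n : ℕ} (G : SimpleGraph (Fin n)) (hG : DecidableRel G.Adj) : EUS G = eus G := by
  have : hG = (fun a b => Classical.propDecidable _) := Subsingleton.elim _ _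
  subst this
  rfl

theorem U_iff {n : ℕ} (G : SimpleGraph (Fin n)) (hG : DecidableRel G.Adj) : G ∈ U n ↔ CU G := by
  classical
  have : hG = (fun a b => Classical.propDecidable _) := Subsingleton.elim _ _
  subst this
  constructor
  · intro h
    refine ⟨h.1, ?_, h.2.2⟩
    rw [Fintype.card_fin]
    exact h.2.1
  · intro h
    refine ⟨h.conn, ?_, h.chem⟩
    have h2 := h.edges
    rw [Fintype.card_fin] at h2
    exact h2

theorem Tri_iff {n : ℕ} (G : SimpleGraph (Fin n)) (hG : DecidableRel G.Adj) (p q r : ℕ) :
    Triangle G p q r ↔ Tri G p q r := by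
  have : hG = (fun a b => Classical.propDecidable _) := Subsingleton.elim _ _
  subst this
  exact Iff.rfl

theorem ex_small {n : ℕ} (p q r : ℕ) (m : ℝ) (hM : m = tv p q r)
    (hex : ∃ (G : SimpleGraph (Fin n)) (_ : DecidableRel G.Adj), CU G ∧ Tri G p q r)
    (hall : ∀ (G : SimpleGraph (Fin n)) (_ : DecidableRel G.Adj), CU G →
      eus G ≤ tv p q r ∧ (eus G = tv p q r ↔ Tri G p q r)) :
    IsGreatest {x | ∃ G ∈ U n, EUS G = x} m ∧ ∀ G ∈ U n, (EUS G = m ↔ Triangle G p q r) := by
  classical
  subst hM
  refine ⟨⟨?_, ?_⟩, ?_⟩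
  · obtain ⟨G, hG, h1, h2⟩ := hex
    exact ⟨G, (U_iff G hG).2 h1, by rw [EUS_eq G hG]; exact ((hall G hG h1).2).2 h2⟩
  · rintro x ⟨G, hGU, rfl⟩
    rw [EUS_eq G inferInstance]
    exact (hall G inferInstance ((U_iff G inferInstance).1 hGU)).1
  · intro G hGU
    rw [EUS_eq G inferInstance, Tri_iff G inferInstance]
    exact (hall G inferInstance ((U_iff G inferInstance).1 hGU)).2

theorem M_gen {n : ℕ} (h7 : 7 ≤ n) (h8 : n ≠ 8) : M n = Mgen n := by
  unfold M Mgen
  rw [if_neg (by omega), if_neg (by omega), if_neg (by omega), if_neg (by omega), if_neg h8]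
  rw [fv (a := 1) (b := 4) (c := 21) (by norm_num), fv (a := 4) (b := 4) (c := 48) (by norm_num),
    fv (a := 2) (b := 4) (c := 28) (by norm_num), fv (a := 3) (b := 4) (c := 37) (by norm_num)]
  norm_num

/-- **Solution of the problem.**  For every `n ≥ 3` the maximum of the Euler Sombor index over
the chemical unicyclic graphs with `n` vertices is `M n`, and the graphs attaining it are exactly
those described by `Extremal`. -/
theorem result (n : ℕ) (hn : 3 ≤ n) :
    IsGreatest {x | ∃ G ∈ U n, EUS G = x} (M n) ∧
      ∀ G ∈ U n, (EUS G = M n ↔ Extremal G) := by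
  classical
  rcases Nat.lt_or_ge n 7 with h7 | h7
  · interval_cases n
    · refine ex_small 2 2 2 _ ?_ ⟨pg ![1, 2, 0], inferInstance,
        cu_of _ (by decide) (by decide) (by decide),
        0, 1, 2, by decide, by decide, by decide, by decide, by decide, by decide, by decide⟩
        (fun G _ h => h.n3 (Fintype.card_fin 3))
      unfold M tv
      rw [fv (a := 2) (b := 2) (c := 12) (by norm_num)]
      norm_num
      ring
    · refine ex_small 3 2 2 _ ?_ ⟨pg ![1, 2, 0, 0], inferInstance,
        cu_of _ (by decide) (by decide) (by decide),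
        0, 1, 2, by decide, by decide, by decide, by decide, by decide, by decide, by decide⟩
        (fun G _ h => h.n4 (Fintype.card_fin 4))
      unfold M tv
      rw [fv (a := 2) (b := 2) (c := 12) (by norm_num), fv (a := 3) (b := 2) (c := 19) (by norm_num),
        fv (a := 3) (b := 1) (c := 13) (by norm_num)]
      norm_num
      ring
    · refine ex_small 4 2 2 _ ?_ ⟨pg ![1, 2, 0, 0, 0], inferInstance,
        cu_of _ (by decide) (by decide) (by decide),
        0, 1, 2, by decide, by decide, by decide, by decide, by decide, by decide, by decide⟩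
        (fun G _ h => h.n5 (Fintype.card_fin 5))
      unfold M tv
      rw [fv (a := 2) (b := 2) (c := 12) (by norm_num), fv (a := 4) (b := 2) (c := 28) (by norm_num),
        fv (a := 4) (b := 1) (c := 21) (by norm_num)]
      norm_num
      ring
    · refine ex_small 4 3 2 _ ?_ ⟨pg ![1, 2, 0, 0, 0, 1], inferInstance,
        cu_of _ (by decide) (by decide) (by decide),
        0, 1, 2, by decide, by decide, by decide, by decide, by decide, by decide, by decide⟩
        (fun G _ h => h.n6 (Fintype.card_fin 6))
      unfold M tv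
      rw [fv (a := 4) (b := 3) (c := 37) (by norm_num), fv (a := 3) (b := 2) (c := 19) (by norm_num),
        fv (a := 4) (b := 2) (c := 28) (by norm_num), fv (a := 4) (b := 1) (c := 21) (by norm_num),
        fv (a := 3) (b := 1) (c := 13) (by norm_num)]
      norm_num
      ring
  · by_cases h8 : n = 8
    · subst h8
      refine ex_small 4 4 3 _ ?_ ⟨pg ![1, 2, 0, 0, 0, 1, 1, 2], inferInstance,
        cu_of _ (by decide) (by decide) (by decide),
        0, 1, 2, by decide, by decide, by decide, by decide, by decide, by decide, by decide⟩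
        (fun G _ h => h.n8 (Fintype.card_fin 8))
      unfold M tv
      rw [fv (a := 4) (b := 4) (c := 48) (by norm_num), fv (a := 4) (b := 3) (c := 37) (by norm_num),
        fv (a := 4) (b := 1) (c := 21) (by norm_num),
        fv (a := 3) (b := 1) (c := 13) (by norm_num)]
      norm_num
      ring
    · rw [M_gen h7 h8]
      have hcard : Fintype.card (Fin n) = n := Fintype.card_fin n
      have key : ∀ G ∈ U n, EUS G ≤ Mgen n ∧ (EUS G = Mgen n ↔ Reg G) := by
        intro G hGU
        have h1 := (U_iff G inferInstance).1 hGU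
        have h2 := h1.gen (by omega)
        rw [hcard] at h2
        rw [EUS_eq G inferInstance]
        exact h2
      refine ⟨⟨?_, ?_⟩, ?_⟩
      · obtain ⟨G, hG, h⟩ := exists_gd n h7 h8
        have hGU := (U_iff G hG).2 h.toCU
        refine ⟨G, hGU, ?_⟩
        have h2 := h.toCU.gen (by omega)
        rw [hcard] at h2
        rw [EUS_eq G hG]
        exact h2.2.2 (reg_of_gd h)
      · rintro x ⟨G, hGU, rfl⟩
        exact (key G hGU).1
      · intro G hGU
        rw [(key G hGU).2]
        have h1 := (U_iff G inferInstance).1 hGU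
        have hc := (h1.counts (by omega)).2
        rw [hcard] at hc
        unfold Extremal
        rw [if_neg (by omega), if_neg (by omega), if_neg (by omega), if_neg (by omega), if_neg h8]
        split_ifs with h0 h0'
        · exact reg_zero h1 (by omega) (by omega)
        · exact reg_one h1 (by omega) 2 3 (Or.inl ⟨rfl, rfl⟩) (fun hh => by omega)
        · exact reg_one h1 (by omega) 3 2 (Or.inr ⟨rfl, rfl⟩) (fun hh => by omega)

end Pool.Agent.Results.MP_b3e27a_co.Maximum
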